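import Pool.Agent.Helper45.L.Defs

/-!
# Project L (MP_e66f84_ag), block AR: almost all primes are good for finitely many numbers
-/

set_option autoImplicit false

namespace Pool.Agent.L

open VC IntermediateField NumberField IsDedekindDomain Polynomial
open Pool.Agent.HG (Pr nm IsOdd)

section

variable {k E : Type} [Field k] [NumberField k] [Field E] [Algebra k E]

/-- a number is integral at almost all primes -/
theorem almost_mem [Algebra.IsAlgebraic k E] (x : E) :
    ∃ Bad : Set (Pr k), Bad.Finite ∧ ∀ v ∉ Bad, ∀ O : ValuationSubring E, OverV v O → x ∈ O := by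
  classical
  set f := minpoly k x with hf
  refine ⟨⋃ i ∈ Finset.range (f.natDegree + 1),
    HeightOneSpectrum.Support (𝓞 k) (f.coeff i), ?_, ?_⟩
  · exact Set.Finite.biUnion (Finset.finite_toSet _) fun i _ =>
      HeightOneSpectrum.Support.finite (𝓞 k) (f.coeff i)
  · intro v hv O hO
    have hc : ∀ i, algebraMap k E (f.coeff i) ∈ O := by
      intro i
      rw [hO]
      by_cases hi : i ≤ f.natDegree
      · by_contra h1
        refine hv ?_
        simp only [Set.mem_iUnion]
        exact ⟨i, Finset.mem_range.2 (by omega), not_le.1 h1⟩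
      · rw [coeff_eq_zero_of_natDegree_lt (not_le.1 hi), map_zero]
        exact zero_le_one
    have hi : IsIntegral k x := (Algebra.IsAlgebraic.isAlgebraic (R := k) x).isIntegral
    -- the polynomial over `O`
    have hT : (↑((f.map (algebraMap k E)).coeffs) : Set E) ⊆ (O.toSubring : Set E) := by
      intro c hc'
      rw [Finset.mem_coe, mem_coeffs_iff] at hc'
      obtain ⟨n, -, rfl⟩ := hc'
      rw [coeff_map]
      exact hc n
    have h2 : IsIntegral O x := by
      refine ⟨(f.map (algebraMap k E)).toSubring O.toSubring hT, ?_, ?_⟩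
      · rw [monic_toSubring]
        exact (minpoly.monic hi).map _
      · have h3 : ((f.map (algebraMap k E)).toSubring O.toSubring hT).map O.toSubring.subtype =
            f.map (algebraMap k E) := by
          ext n
          rw [coeff_map]
          exact coeff_toSubring _ _ hT
        have h4 : eval₂ (algebraMap O E) x ((f.map (algebraMap k E)).toSubring O.toSubring hT) =
            eval x (((f.map (algebraMap k E)).toSubring O.toSubring hT).map O.toSubring.subtype) := by
          rw [eval_map]
          rfl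
        rw [h4, h3, eval_map]
        exact minpoly.aeval k x
    obtain ⟨y, hy⟩ := IsIntegrallyClosed.isIntegral_iff.1 h2
    rw [← hy]
    exact y.2

/-- a number is a unit at almost all primes -/
theorem almost_unit [Algebra.IsAlgebraic k E] {x : E} (hx : x ≠ 0) :
    ∃ Bad : Set (Pr k), Bad.Finite ∧ ∀ v ∉ Bad, ∀ O : ValuationSubring E, OverV v O →
      O.valuation x = 1 := by
  obtain ⟨B1, h1, k1⟩ := almost_mem (k := k) x
  obtain ⟨B2, h2, k2⟩ := almost_mem (k := k) x⁻¹
  refine ⟨B1 ∪ B2, h1.union h2, fun v hv O hO => ?_⟩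
  have m1 := k1 v (fun h => hv (Or.inl h)) O hO
  have m2 := k2 v (fun h => hv (Or.inr h)) O hO
  have e1 := (O.valuation_le_one_iff x).2 m1
  have e2 := (O.valuation_le_one_iff x⁻¹).2 m2
  have e3 : O.valuation x * O.valuation x⁻¹ = 1 := by
    rw [← map_mul, mul_inv_cancel₀ hx, map_one]
  refine le_antisymm e1 ?_
  calc (1 : O.ValueGroup) = O.valuation x * O.valuation x⁻¹ := e3.symm
    _ ≤ O.valuation x * 1 := mul_le_mul_right e2 _
    _ = _ := mul_one _

/-- finitely many conditions -/
theorem almost_all {ι : Type} (A : Finset ι) (P : ι → Pr k → ValuationSubring E → Prop)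
    (h : ∀ i ∈ A, ∃ Bad : Set (Pr k), Bad.Finite ∧ ∀ v ∉ Bad, ∀ O : ValuationSubring E, OverV v O →
      P i v O) :
    ∃ Bad : Set (Pr k), Bad.Finite ∧ ∀ v ∉ Bad, ∀ O : ValuationSubring E, OverV v O →
      ∀ i ∈ A, P i v O := by
  classical
  induction A using Finset.induction_on with
  | empty => exact ⟨∅, Set.finite_empty, fun _ _ _ _ i hi => absurd hi (Finset.notMem_empty i)⟩
  | insert a s ha ih =>
    obtain ⟨B1, h1, k1⟩ := h a (Finset.mem_insert_self a s)
    obtain ⟨B2, h2, k2⟩ := ih fun i hi => h i (Finset.mem_insert_of_mem hi)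
    refine ⟨B1 ∪ B2, h1.union h2, fun v hv O hO i hi => ?_⟩
    rcases Finset.mem_insert.1 hi with rfl | hi
    · exact k1 v (fun h => hv (Or.inl h)) O hO
    · exact k2 v (fun h => hv (Or.inr h)) O hO i hi

end

/-- **Block AR.** -/
theorem stmtAR : StmtAR := by
  classical
  intro k E _ _ _ _ _ _ S C hS
  -- the differences of conjugates
  let D : Finset E := C.biUnion fun c => (((minpoly k c).rootSet E).toFinset.image fun c' => c' - c)
  obtain ⟨B1, h1, k1⟩ := almost_all (k := k) (E := E) S (fun s _ O => O.valuation s = 1)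
    fun s hs => almost_unit (hS s hs)
  obtain ⟨B2, h2, k2⟩ := almost_all (k := k) (E := E) (D.filter (· ≠ 0))
    (fun s _ O => O.valuation s = 1) fun s hs => almost_unit (Finset.mem_filter.1 hs).2
  obtain ⟨B3, h3, k3⟩ := almost_all (k := k) (E := E) C (fun s _ O => s ∈ O)
    fun s _ => almost_mem s
  refine ⟨B1 ∪ B2 ∪ B3, (h1.union h2).union h3, fun v hv O hO => ?_⟩
  have hv1 : v ∉ B1 := fun h => hv (Or.inl (Or.inl h))
  have hv2 : v ∉ B2 := fun h => hv (Or.inl (Or.inr h))
  have hv3 : v ∉ B3 := fun h => hv (Or.inr h)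
  refine ⟨k1 v hv1 O hO, fun τ hτ c hc => ?_⟩
  by_contra hne
  have hi : IsIntegral k c := (Algebra.IsAlgebraic.isAlgebraic (R := k) c).isIntegral
  have hroot : τ c ∈ ((minpoly k c).rootSet E).toFinset := by
    rw [Set.mem_toFinset, mem_rootSet]
    refine ⟨minpoly.ne_zero hi, ?_⟩
    have e := congrArg τ (minpoly.aeval k c)
    rw [map_zero] at e
    rw [← e]
    exact (aeval_algHom_apply τ.toAlgHom c (minpoly k c))
  have hD : τ c - c ∈ D.filter (· ≠ 0) := by
    refine Finset.mem_filter.2 ⟨Finset.mem_biUnion.2 ⟨c, hc, Finset.mem_image.2 ⟨τ c, hroot, rfl⟩⟩, ?_⟩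
    exact sub_ne_zero.2 hne
  have e1 := k2 v hv2 O hO _ hD
  have e2 := hτ.res c (k3 v hv3 O hO c hc)
  have e3 : τ.toRingEquiv c = τ c := rfl
  rw [e3, e1] at e2
  exact lt_irrefl _ e2

end Pool.Agent.L
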